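import Pool.Agent.Y393.EqStrong

/-!
Extremal graphs for the pattern of `K_4` whose classes are the edges of a 4-cycle and each of its
two diagonals, with 46 colours, are far from every almost balanced complete multipartite graph.
-/

set_option autoImplicit false

namespace Pool.Agent.Results.MP_6a4ab5_co.FarFromBalanced

open Pool.Agent.TH469.EQ

/-- The number of ordered pairs of vertices in whose adjacency `G` and `H` differ, that is, twice
the number of edges in exactly one of the two graphs. -/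
noncomputable def diffPairs {n : ℕ} (G H : SimpleGraph (Fin n)) : ℕ :=
  Nat.card {p : Fin n × Fin n // ¬ (G.Adj p.1 p.2 ↔ H.Adj p.1 p.2)}

/-- `H` is a complete multipartite graph in which the sizes of any two parts differ by at most
`w`. -/
def AlmostBalanced {n : ℕ} (w : ℝ) (H : SimpleGraph (Fin n)) : Prop :=
  H.IsCompleteMultipartite ∧ ∀ x y : Fin n,
    (Nat.card {z // ¬ H.Adj x z} : ℝ) ≤ (Nat.card {z // ¬ H.Adj y z} : ℝ) + w

theorem diffPairs_self {n : ℕ} (G : SimpleGraph (Fin n)) : diffPairs G G = 0 := by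
  unfold diffPairs
  rw [Nat.card_eq_zero]
  left
  exact ⟨fun p => p.2 Iff.rfl⟩

/-- Let `PC` be the pattern of `K_4` with three classes: the edges of a 4-cycle, and each of its two
diagonals. It is neither the rainbow pattern `⊥` nor the monochromatic pattern `⊤`, and
`r₁(PC) < 46`. There is a constant `c > 0` such that for all sufficiently large `n`: every graph on
`n` vertices that differs in at most `c n²` pairs from a complete multipartite graph whose part
sizes differ by at most `c n` has at least `exp (c n²)` times fewer colourings than the extremal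
graphs; every `(46, PC)`-extremal graph differs in more than `c n²` pairs from every such graph;
there are extremal graphs that are complete multipartite, each of them has two parts whose
sizes differ by more than `c n`; and no extremal graph is equitable. -/
theorem result :
    (PC ≠ ⊥ ∧ PC ≠ ⊤) ∧ (∃ r1, IsLeast (rOneSet PC) r1 ∧ r1 < 46) ∧
    ∃ c : ℝ, 0 < c ∧ ∃ n0 : ℕ, ∀ n, n0 ≤ n →
      (∀ G H K : SimpleGraph (Fin n), AlmostBalanced (c * n) H →
        (diffPairs G H : ℝ) ≤ c * (n : ℝ) ^ 2 → Extremal 46 PC K →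
        Real.exp (c * (n : ℝ) ^ 2) * (num 46 PC G : ℝ) ≤ (num 46 PC K : ℝ)) ∧
      (∀ G H : SimpleGraph (Fin n), Extremal 46 PC G → AlmostBalanced (c * n) H →
        c * (n : ℝ) ^ 2 < (diffPairs G H : ℝ)) ∧
      (∃ G : SimpleGraph (Fin n), Extremal 46 PC G ∧ G.IsCompleteMultipartite) ∧
      (∀ G : SimpleGraph (Fin n), Extremal 46 PC G → G.IsCompleteMultipartite →
        ∃ x y : Fin n, (Nat.card {z // ¬ G.Adj x z} : ℝ) + c * n <
          (Nat.card {z // ¬ G.Adj y z} : ℝ)) ∧
      ∀ G : SimpleGraph (Fin n), Extremal 46 PC G → ¬ Equitable G := by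
  classical
  refine ⟨⟨PC_ne_bot, PC_ne_top⟩, exists_rOne, ?_⟩
  obtain ⟨c, hc, hcε, n1, h1⟩ := Y393E.upper' (1 / 2000000) (by norm_num) (by norm_num)
  obtain ⟨n2, h2⟩ := five_big
  obtain ⟨n3, h3⟩ := equitable_not_extremal
  refine ⟨c, hc, n1 + n2 + n3 + 1, ?_⟩
  intro n hn
  have hnr : (0 : ℝ) < n := by
    have : 0 < n := by omega
    exact_mod_cast this
  have hn2 : (0 : ℝ) < (n : ℝ) ^ 2 := by positivity
  have ha : ∀ G H K : SimpleGraph (Fin n), AlmostBalanced (c * n) H →
      (diffPairs G H : ℝ) ≤ c * (n : ℝ) ^ 2 → Extremal 46 PC K →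
      Real.exp (c * (n : ℝ) ^ 2) * (num 46 PC G : ℝ) ≤ (num 46 PC K : ℝ) := by
    intro G H K hH hd hK
    have e1 : (diffPairs G H : ℝ) = ((Finset.univ.filter
        (fun p : Fin n × Fin n => ¬ (G.Adj p.1 p.2 ↔ H.Adj p.1 p.2))).card : ℝ) := by
      unfold diffPairs
      rw [Nat.card_eq_fintype_card, Fintype.card_subtype]
    rw [e1] at hd
    have h4 := h1 n (by omega) G H hH.1 hH.2 hd
    obtain ⟨K', hK'⟩ := h2 n (by omega)
    have hG0 : (0 : ℝ) < (num 46 PC G : ℝ) := by
      have := num_pos (r := 46) (by norm_num) G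
      exact_mod_cast this
    have hK0 : (0 : ℝ) < (num 46 PC K : ℝ) := by
      have := num_pos (r := 46) (by norm_num) K
      exact_mod_cast this
    have hK'0 : (0 : ℝ) < (num 46 PC K' : ℝ) := by
      have := num_pos (r := 46) (by norm_num) K'
      exact_mod_cast this
    have h5 : Real.log (num 46 PC K') ≤ Real.log (num 46 PC K) :=
      Real.log_le_log hK'0 (by exact_mod_cast hK K')
    have h6 : c * (n : ℝ) ^ 2 ≤ 1 / 2000000 * (n : ℝ) ^ 2 :=
      mul_le_mul_of_nonneg_right hcε hn2.le
    have h7 : c * (n : ℝ) ^ 2 + Real.log (num 46 PC G) ≤ Real.log (num 46 PC K) := by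
      have e2 : (vv / 2 + 1 / 2000000) * (n : ℝ) ^ 2 =
          vv / 2 * (n : ℝ) ^ 2 + 1 / 2000000 * (n : ℝ) ^ 2 := by ring
      have e3 : (vv / 2 + 1 / 1000000) * (n : ℝ) ^ 2 =
          vv / 2 * (n : ℝ) ^ 2 + 1 / 2000000 * (n : ℝ) ^ 2 + 1 / 2000000 * (n : ℝ) ^ 2 := by ring
      rw [e2] at h4
      rw [e3] at hK'
      linarith
    calc Real.exp (c * (n : ℝ) ^ 2) * (num 46 PC G : ℝ)
        = Real.exp (c * (n : ℝ) ^ 2 + Real.log (num 46 PC G)) := by
          rw [Real.exp_add, Real.exp_log hG0]
      _ ≤ Real.exp (Real.log (num 46 PC K)) := Real.exp_le_exp.2 h7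
      _ = _ := Real.exp_log hK0
  have hb : ∀ G H : SimpleGraph (Fin n), Extremal 46 PC G → AlmostBalanced (c * n) H →
      c * (n : ℝ) ^ 2 < (diffPairs G H : ℝ) := by
    intro G H hG hH
    by_contra hcon
    push Not at hcon
    have h4 := ha G H G hH hcon hG
    have hG0 : (0 : ℝ) < (num 46 PC G : ℝ) := by
      have := num_pos (r := 46) (by norm_num) G
      exact_mod_cast this
    have h5 : 1 < Real.exp (c * (n : ℝ) ^ 2) := Real.one_lt_exp_iff.2 (by positivity)
    nlinarith
  refine ⟨ha, hb, exists_cm n 46, ?_, h3 n (by omega)⟩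
  intro G hG hcm
  by_contra hcon
  push Not at hcon
  have h4 := hb G G hG ⟨hcm, fun x y => hcon y x⟩
  rw [diffPairs_self] at h4
  have : 0 < c * (n : ℝ) ^ 2 := by positivity
  simp only [Nat.cast_zero] at h4
  linarith

end Pool.Agent.Results.MP_6a4ab5_co.FarFromBalanced
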